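import Mathlib

/-! Symmetric powers have several extensions onto the Kleisli category of max-min measures. -/

namespace Pool.Agent.Results.MP_6cdbe4_gt.NotUnique

open Set Classical

/-- weight functions of max-min measures of finite support -/
def IsJ {X : Type} (μ : X → EReal) : Prop := {x | μ x ≠ ⊥}.Finite ∧ ∃ x, μ x = ⊤

/-- the value `μ(φ)` -/
noncomputable def ev {X : Type} (μ : X → EReal) (φ : X → ℝ) : EReal := ⨆ x, min (μ x) (φ x)

/-- the ultrametric on max-min measures -/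
noncomputable def dhat {X : Type} (d : X → X → ℝ) (μ ν : X → EReal) : ℝ :=
  sInf {r | 0 < r ∧ ∀ φ : X → ℝ, (∀ x y, d x y < r → φ x = φ y) → ev μ φ = ev ν φ}

/-- Kleisli morphisms: nonexpanding maps `X → J Y` -/
def Mor {X Y : Type} (d : X → X → ℝ) (e : Y → Y → ℝ) (f : X → Y → EReal) : Prop :=
  (∀ x, IsJ (f x)) ∧ ∀ x x', dhat e (f x) (f x') ≤ d x x'

/-- Kleisli composition -/
noncomputable def comp {X Y Z : Type} (g : Y → Z → EReal) (f : X → Y → EReal) (x : X) (z : Z) :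
    EReal := ⨆ y, min (f x y) (g y z)

/-- the Dirac measure -/
noncomputable def δ {X : Type} (x y : X) : EReal := if y = x then ⊤ else ⊥

/-- the `G`-symmetric power -/
abbrev SP {n : ℕ} (G : Subgroup (Equiv.Perm (Fin n))) (X : Type) : Type :=
  Quot fun x y : Fin n → X => ∃ σ ∈ G, y = x ∘ σ

/-- the metric of the symmetric power -/
noncomputable def dSP {n : ℕ} (G : Subgroup (Equiv.Perm (Fin n))) (X : Type) [MetricSpace X]
    (p q : SP G X) : ℝ :=
  sInf {r | ∃ x y : Fin n → X, Quot.mk _ x = p ∧ Quot.mk _ y = q ∧ r = dist x y}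

/-- assignments on Kleisli morphisms -/
def Asg {n : ℕ} (G : Subgroup (Equiv.Perm (Fin n))) : Type 1 :=
  ∀ (X Y : Type) [MetricSpace X] [IsUltrametricDist X] [MetricSpace Y] [IsUltrametricDist Y],
    (X → Y → EReal) → SP G X → SP G Y → EReal

/-- `F` is a functor on the Kleisli category that extends `SP^n_G` -/
def IsExt {n : ℕ} (G : Subgroup (Equiv.Perm (Fin n))) (F : Asg G) : Prop :=
  ∀ (X Y : Type) [MetricSpace X] [IsUltrametricDist X] [MetricSpace Y] [IsUltrametricDist Y],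
    (∀ f, Mor dist dist f → Mor (dSP G X) (dSP G Y) (F X Y f)) ∧
    (∀ u : X → Y, (∀ x x', dist (u x) (u x') ≤ dist x x') → ∀ x : Fin n → X,
      F X Y (fun x => δ (u x)) (Quot.mk _ x) = δ (Quot.mk _ (u ∘ x))) ∧
    ∀ (Z : Type) [MetricSpace Z] [IsUltrametricDist Z] (f : X → Y → EReal) (g : Y → Z → EReal),
      Mor dist dist f → Mor dist dist g → F X Z (comp g f) = comp (F Y Z g) (F X Y f)

def Dom {X : Type} (d : X → X → ℝ) (r : ℝ) (μ ν : X → EReal) : Prop :=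
  ∀ y, μ y ≤ ⨆ z : {z // d y z < r}, ν z

theorem ev_le {X : Type} {d : X → X → ℝ} {r : ℝ} {μ ν : X → EReal} (h : Dom d r μ ν) {φ : X → ℝ}
    (hφ : ∀ x y, d x y < r → φ x = φ y) : ev μ φ ≤ ev ν φ := iSup_le fun y => by
  refine (inf_le_inf_right _ (h y)).trans ?_
  rw [iSup_inf_eq]
  exact iSup_le fun z => le_iSup_of_le z.1 (by rw [hφ y z z.2])

theorem dhat_le {X : Type} {d : X → X → ℝ} {s : ℝ} {μ ν : X → EReal} (hs : 0 ≤ s)
    (h : ∀ r, s < r → Dom d r μ ν ∧ Dom d r ν μ) : dhat d μ ν ≤ s :=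
  le_of_forall_gt_imp_ge_of_dense fun r hr => csInf_le ⟨0, fun _ h => h.1.le⟩
    ⟨hs.trans_lt hr, fun _ hφ => (ev_le (h r hr).1 hφ).antisymm (ev_le (h r hr).2 hφ)⟩

section
variable {X : Type} [MetricSpace X] {μ ν : X → EReal}

theorem big (hμ : IsJ μ) (hν : IsJ ν) : ∀ᶠ r in Filter.atTop, Dom dist r μ ν := by
  obtain ⟨z, hz⟩ := hν.2
  obtain ⟨C, hC⟩ := Metric.isBounded_iff.1 (hμ.1.insert z).isBounded
  filter_upwards [Filter.eventually_gt_atTop C] with r hr y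
  by_cases h : μ y = ⊥
  · simp [h]
  · exact le_iSup_of_le ⟨z, (hC (mem_insert_of_mem _ h) (mem_insert _ _)).trans_lt hr⟩ (by simp [hz])

variable [IsUltrametricDist X]

theorem dom_of {r s : ℝ} (hr : 0 < r) (hs : r < s)
    (h : ∀ φ : X → ℝ, (∀ x y, dist x y < r → φ x = φ y) → ev μ φ = ev ν φ) : Dom dist s μ ν := by
  intro y
  by_contra h1
  obtain ⟨c, c1, c2⟩ := EReal.lt_iff_exists_real_btwn.1 (not_le.1 h1)
  have h2 := h (fun z => if dist y z < r then c else c - 1) fun a b hab => if_congr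
    ⟨fun h => (dist_triangle_max y a b).trans_lt (max_lt h hab),
      fun h => (dist_triangle_max y b a).trans_lt (max_lt h (by rwa [dist_comm]))⟩ rfl rfl
  refine (max_lt c1 (EReal.coe_lt_coe_iff.2 (sub_one_lt c))).not_ge
    (le_trans (le_iSup_of_le y (by simp [hr, c2.le])) (h2.le.trans (iSup_le fun z => ?_)))
  beta_reduce
  split_ifs with h3
  · exact (min_le_left _ _).trans (le_max_of_le_left (le_iSup_of_le ⟨z, h3.trans hs⟩ le_rfl))
  · exact (min_le_right _ _).trans (le_max_right _ _)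

theorem dom (hμ : IsJ μ) (hν : IsJ ν) {s : ℝ} (h : dhat dist μ ν < s) :
    Dom dist s μ ν ∧ Dom dist s ν μ := by
  obtain ⟨r, r1, r2, r3⟩ := ((Filter.eventually_gt_atTop 0).and ((big hμ hν).and (big hν hμ))).exists
  obtain ⟨t, ⟨t1, t2⟩, t3⟩ := exists_lt_of_csInf_lt
    (by exact ⟨r, r1, fun _ hφ => (ev_le r2 hφ).antisymm (ev_le r3 hφ)⟩) h
  exact ⟨dom_of t1 t3 t2, dom_of t1 t3 fun φ hφ => (t2 φ hφ).symm⟩

end

variable {n : ℕ} (G : Subgroup (Equiv.Perm (Fin n))) (τ : EReal ≃o EReal)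

theorem mk_eq {X : Type} {x y : Fin n → X} :
    (Quot.mk _ x : SP G X) = Quot.mk _ y ↔ ∃ σ ∈ G, y = x ∘ σ :=
  Quot.eq.trans (Equivalence.eqvGen_iff ⟨fun _ => ⟨1, G.one_mem, rfl⟩,
    fun ⟨σ, h, e⟩ => ⟨σ⁻¹, G.inv_mem h, by ext; simp [e]⟩,
    fun ⟨σ, h, e⟩ ⟨ρ, h', e'⟩ => ⟨σ * ρ, G.mul_mem h h', by ext; simp [e, e']⟩⟩)

noncomputable def ext {X Y : Type} (f : X → Y → EReal) (p : SP G X) (q : SP G Y) : EReal :=
  ⨆ x, ⨆ _ : Quot.mk _ x = p, ⨆ y, ⨆ _ : Quot.mk _ y = q, ⨅ i, τ (f (x i) (y i))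

theorem ext_mk {X Y : Type} (f : X → Y → EReal) (x : Fin n → X) (q : SP G Y) :
    ext G τ f (Quot.mk _ x) q = ⨆ y, ⨆ _ : Quot.mk _ y = q, ⨅ i, τ (f (x i) (y i)) := by
  refine le_antisymm (iSup₂_le fun x' h => iSup₂_le fun y hy => ?_) (le_iSup₂_of_le x rfl le_rfl)
  obtain ⟨σ, h1, rfl⟩ := (mk_eq G).1 h
  exact le_iSup₂_of_le (y ∘ σ) (((mk_eq G).2 ⟨σ, h1, rfl⟩).symm.trans hy)
    (le_iInf fun i => iInf_le _ (σ i))

theorem ext_dom {X Y : Type} [MetricSpace Y] {f : X → Y → EReal} {x x' : Fin n → X} {r : ℝ}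
    (hr : 0 < r) (h : ∀ i, Dom dist r (f (x i)) (f (x' i))) :
    Dom (dSP G Y) r (ext G τ f (Quot.mk _ x)) (ext G τ f (Quot.mk _ x')) := fun q => by
  simp only [ext_mk]
  refine iSup₂_le fun y hy => (iInf_mono fun i => τ.monotone (h i (y i))).trans ?_
  simp only [τ.map_iSup, iInf_iSup_eq]
  exact iSup_le fun z => le_iSup_of_le ⟨Quot.mk _ fun i => (z i).1, (csInf_le
    (by exact ⟨0, fun _ ⟨_, _, _, _, h⟩ => h ▸ dist_nonneg⟩) (by exact ⟨y, _, hy, rfl, rfl⟩)).trans_lt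
      ((dist_pi_lt_iff hr).2 fun i => (z i).2)⟩ (le_iSup₂_of_le _ rfl le_rfl)

theorem isExt : IsExt G fun _ _ _ _ _ _ => ext G τ := fun X Y _ _ _ _ => by
  refine ⟨fun f hf => ⟨Quot.ind fun x => ⟨?_, ?_⟩, fun p p' => ?_⟩, fun u _ x => ?_,
    fun Z _ _ f g _ _ => ?_⟩
  · refine ((Finite.pi' fun i => (hf.1 (x i)).1).image (Quot.mk _)).subset fun q hq => ?_
    by_contra h
    refine hq (by
      refine (ext_mk G τ f x q).trans (iSup₂_eq_bot.2 fun y hy => ?_)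
      obtain ⟨i, hi⟩ := not_forall.1 fun h1 => h ⟨y, h1, hy⟩
      exact le_bot_iff.1 (iInf_le_of_le i (by rw [not_not.1 hi, τ.map_bot])))
  · choose y hy using fun i => (hf.1 (x i)).2
    exact ⟨Quot.mk _ y, (ext_mk G τ f x _).trans (top_le_iff.1 (le_iSup₂_of_le y rfl (by simp [hy])))⟩
  · refine le_csInf ⟨_, p.out, p'.out, p.out_eq, p'.out_eq, rfl⟩ ?_
    rintro _ ⟨x, x', rfl, rfl, rfl⟩
    refine dhat_le dist_nonneg fun r hr => ?_
    have h := fun i => dom (hf.1 _) (hf.1 _)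
      (((hf.2 _ _).trans (dist_le_pi_dist x x' i)).trans_lt hr)
    exact ⟨ext_dom G τ (dist_nonneg.trans_lt hr) fun i => (h i).1,
      ext_dom G τ (dist_nonneg.trans_lt hr) fun i => (h i).2⟩
  · ext q
    beta_reduce
    rw [ext_mk, δ]
    split_ifs with h
    · exact top_le_iff.1 (le_iSup₂_of_le (u ∘ x) h.symm (by simp [δ]))
    · refine iSup₂_eq_bot.2 fun y hy => ?_
      obtain ⟨i, hi⟩ := Function.ne_iff.1 fun h1 : y = u ∘ x => h (h1 ▸ hy.symm)
      exact le_bot_iff.1 (iInf_le_of_le i (by rw [δ, if_neg (show ¬ y i = u (x i) from hi), τ.map_bot]))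
  · ext p w
    induction p using Quot.ind with | mk x => ?_
    simp only [comp, ext_mk, τ.map_iSup, τ.map_inf, iInf_iSup_eq, iInf_inf_eq, iSup_inf_eq]
    refine le_antisymm (iSup₂_le fun z hz => iSup_le fun y => le_iSup_of_le (Quot.mk _ y)
      (le_iSup₂_of_le y rfl (inf_le_inf_left _ ?_))) (iSup_le fun q => iSup₂_le fun y hy => ?_)
    · rw [ext_mk]
      exact le_iSup₂_of_le z hz le_rfl
    · subst hy
      simp only [ext_mk, inf_iSup_eq]
      exact iSup₂_mono fun z _ => le_iSup_of_le y le_rfl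

theorem result (n : ℕ) (hn : 1 ≤ n) (G : Subgroup (Equiv.Perm (Fin n))) :
    ∃ F₁ F₂ : Asg G, IsExt G F₁ ∧ IsExt G F₂ ∧
      ∃ f : ℤ_[2] → ℤ_[2] → EReal, Mor dist dist f ∧ F₁ _ _ f ≠ F₂ _ _ f := by
  have : Nonempty (Fin n) := ⟨⟨0, hn⟩⟩
  refine ⟨_, _, isExt G (.refl _), isExt G (OrderIso.addRight (1 : ℝ)).withTopCongr.withBotCongr,
    fun _ y => if y = 0 then ⊤ else if y = 1 then (0 : ℝ) else ⊥, ⟨fun _ => ⟨(toFinite {0, 1}).subset
      fun y hy => ?_, 0, if_pos rfl⟩, fun _ _ => dhat_le dist_nonneg fun r hr => and_self_iff.2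
        fun y => le_iSup_of_le ⟨y, by simpa using dist_nonneg.trans_lt hr⟩ le_rfl⟩, fun h => ?_⟩
  · by_contra h
    simp_all
  · have h1 := congrFun (congrFun h (Quot.mk _ 1)) (Quot.mk _ 1)
    have h2 : ∀ y : Fin n → ℤ_[2], (Quot.mk _ y : SP G _) = Quot.mk _ 1 ↔ y = 1 := fun y =>
      ⟨fun h => ((mk_eq G).1 h.symm).elim fun σ h => h.2, fun h => h ▸ rfl⟩
    simp only [ext_mk, h2, iSup_iSup_eq_left, Pi.one_apply, one_ne_zero, if_false, if_true,
      iInf_const] at h1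
    exact zero_ne_one ((EReal.coe_eq_coe_iff.1 h1).trans (zero_add (1 : ℝ)))

end Pool.Agent.Results.MP_6cdbe4_gt.NotUnique
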